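import Pool.Agent.H394R3.BC.Theta

/-!
# Estimates for one cell: trivial bound, Taylor bound from vanishing moments
-/

set_option autoImplicit false

open MeasureTheory Set Filter Topology

namespace Pool.Agent.H394R3.BC

/-- total mass of a cell -/
noncomputable def cellM (A : ℕ → ℝ) (f : ℝ → ℝ) (S : Finset ℕ) (a b : ℝ) : ℝ :=
  ∑ n ∈ S, |A n| + ∫ w in a..b, |f w|

theorem cellM_nonneg (A : ℕ → ℝ) (f : ℝ → ℝ) (S : Finset ℕ) {a b : ℝ} (hab : a ≤ b) : 0 ≤ cellM A f S a b :=
  add_nonneg (Finset.sum_nonneg fun _ _ => abs_nonneg _)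
    (intervalIntegral.integral_nonneg hab fun _ _ => abs_nonneg _)

theorem cellB_abs_le {A u : ℕ → ℝ} {f g : ℝ → ℝ} (hf : Continuous f) (hg : Continuous g) {S : Finset ℕ}
    {a b : ℝ} (hab : a ≤ b) (hu : ∀ n ∈ S, u n ∈ Icc a b) {G : ℝ} (hG : ∀ w ∈ Icc a b, |g w| ≤ G) :
    |cellB A u f S a b g| ≤ G * cellM A f S a b := by
  unfold cellB cellM
  have h1 : |∑ n ∈ S, A n * g (u n)| ≤ G * ∑ n ∈ S, |A n| := by
    refine (Finset.abs_sum_le_sum_abs _ _).trans ?_
    rw [Finset.mul_sum]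
    apply Finset.sum_le_sum
    intro n hn
    rw [abs_mul, mul_comm]
    exact mul_le_mul_of_nonneg_right (hG _ (hu n hn)) (abs_nonneg _)
  have h2 : |∫ w in a..b, f w * g w| ≤ G * ∫ w in a..b, |f w| := by
    rw [← intervalIntegral.integral_const_mul]
    refine (intervalIntegral.abs_integral_le_integral_abs hab).trans ?_
    apply intervalIntegral.integral_mono_on hab
    · exact (hf.mul hg).abs.intervalIntegrable _ _
    · exact (hf.abs.const_mul G).intervalIntegrable _ _ 
    · intro w hw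
      rw [abs_mul, mul_comm]
      exact mul_le_mul_of_nonneg_right (hG w hw) (abs_nonneg _)
  rw [mul_add]
  exact (abs_sub _ _).trans (add_le_add h1 h2)

theorem cellB_sub {A u : ℕ → ℝ} {f g h : ℝ → ℝ} (hf : Continuous f) (hg : Continuous g) (hh : Continuous h)
    (S : Finset ℕ) (a b : ℝ) :
    cellB A u f S a b (fun w => g w - h w) = cellB A u f S a b g - cellB A u f S a b h := by
  unfold cellB
  have e1 : ∀ n, A n * (g (u n) - h (u n)) = A n * g (u n) - A n * h (u n) := fun n => by ring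
  have e2 : ∀ w, f w * (g w - h w) = f w * g w - f w * h w := fun w => by ring
  simp_rw [e1, e2]
  rw [Finset.sum_sub_distrib, intervalIntegral.integral_sub]
  · ring
  · exact (hf.mul hg).intervalIntegrable _ _
  · exact (hf.mul hh).intervalIntegrable _ _

theorem cellB_poly {A u : ℕ → ℝ} {f : ℝ → ℝ} (hf : Continuous f) (S : Finset ℕ) (a b : ℝ) (m : ℕ) (c : ℕ → ℝ)
    (hm : ∀ i < m, cellB A u f S a b (fun w => (w - a) ^ i) = 0) :
    cellB A u f S a b (fun w => ∑ i ∈ Finset.range m, (w - a) ^ i * c i) = 0 := by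
  have h : cellB A u f S a b (fun w => ∑ i ∈ Finset.range m, (w - a) ^ i * c i) =
      ∑ i ∈ Finset.range m, c i * cellB A u f S a b (fun w => (w - a) ^ i) := by
    unfold cellB
    have e1 : ∀ n, A n * ∑ i ∈ Finset.range m, (u n - a) ^ i * c i =
        ∑ i ∈ Finset.range m, c i * (A n * (u n - a) ^ i) := by
      intro n
      rw [Finset.mul_sum]
      exact Finset.sum_congr rfl fun i _ => by ring
    have e2 : ∀ w, f w * ∑ i ∈ Finset.range m, (w - a) ^ i * c i =
        ∑ i ∈ Finset.range m, c i * (f w * (w - a) ^ i) := by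
      intro w
      rw [Finset.mul_sum]
      exact Finset.sum_congr rfl fun i _ => by ring
    simp_rw [e1, e2]
    rw [Finset.sum_comm, intervalIntegral.integral_finsetSum]
    · rw [← Finset.sum_sub_distrib]
      apply Finset.sum_congr rfl
      intro i _
      rw [intervalIntegral.integral_const_mul, ← Finset.mul_sum]
      ring
    · intro i _
      have : Continuous (fun w => c i * (f w * (w - a) ^ i)) := by fun_prop
      exact this.intervalIntegrable _ _
  rw [h]
  apply Finset.sum_eq_zero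
  intro i hi
  rw [hm i (Finset.mem_range.1 hi), mul_zero]

/-- trivial bounds -/
theorem cell_triv (k : ℕ) {A u : ℕ → ℝ} {f : ℝ → ℝ} (hf : Continuous f) {S : Finset ℕ} {a b v : ℝ}
    (ha : 0 ≤ a) (hab : a ≤ b) (hu : ∀ n ∈ S, u n ∈ Icc a b) (hv : 0 ≤ v) :
    |cellB A u f S a b (fun w => Ker k w v)| ≤ v ^ k / k.factorial * cellM A f S a b :=
  cellB_abs_le hf (Ker_cont_left k v) hab hu fun _ hw => Ker_le_pow k (ha.trans hw.1) hv

theorem cell_triv' (k : ℕ) {A u : ℕ → ℝ} {f : ℝ → ℝ} (hf : Continuous f) {S : Finset ℕ} {a b v : ℝ}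
    (ha : 0 < a) (hab : a ≤ b) (hu : ∀ n ∈ S, u n ∈ Icc a b) (hv : 0 ≤ v) :
    |cellB A u f S a b (fun w => Ker k w v)| ≤ (v / a) ^ ((k : ℝ) / 2) * cellM A f S a b := by
  apply cellB_abs_le hf (Ker_cont_left k v) hab hu
  intro w hw
  have hw0 : 0 < w := ha.trans_le hw.1
  refine (Ker_le_rpow k hw0 hv).trans ?_
  apply Real.rpow_le_rpow (div_nonneg hv hw0.le) _ (by positivity)
  exact div_le_div_of_nonneg_left hv ha hw.1

/-- Taylor bound from `m` vanishing moments -/
theorem cell_taylor (k m : ℕ) {A u : ℕ → ℝ} {f : ℝ → ℝ} (hf : Continuous f) {S : Finset ℕ} {a b v : ℝ}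
    (ha : 0 < a) (hab : a ≤ b) (hu : ∀ n ∈ S, u n ∈ Icc a b) (hv : 0 ≤ v)
    (hm : ∀ i < m, cellB A u f S a b (fun w => (w - a) ^ i) = 0) :
    |cellB A u f S a b (fun w => Ker k w v)| ≤
      (b - a) ^ m / m.factorial * (v / a) ^ (((k + m : ℕ) : ℝ) / 2) * cellM A f S a b := by
  set P : ℝ → ℝ := fun w => ∑ i ∈ Finset.range m, (w - a) ^ i *
    ((-1) ^ i * Ker (k + i) a v / (i.factorial : ℝ)) with hP
  have hPc : Continuous P := by rw [hP]; fun_prop
  have h0 := cellB_poly (A := A) (u := u) hf S a b m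
    (fun i => (-1) ^ i * Ker (k + i) a v / (i.factorial : ℝ)) hm
  have h1 := cellB_sub (A := A) (u := u) hf (Ker_cont_left k v) hPc S a b
  have h2 : cellB A u f S a b P = 0 := h0
  rw [h2, sub_zero] at h1
  rw [← h1]
  apply cellB_abs_le hf ((Ker_cont_left k v).sub hPc) hab hu
  intro w hw
  have h3 := Ker_taylor k m ha le_rfl hw.1 hv
  have e : (∑ i ∈ Finset.range m, (w - a) ^ i / (i.factorial : ℝ) * ((-1) ^ i * Ker (k + i) a v)) = P w := by
    rw [hP]
    apply Finset.sum_congr rfl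
    intro i _
    ring
  rw [e] at h3
  refine h3.trans ?_
  rw [abs_of_nonneg (by linarith [hw.1] : 0 ≤ w - a)]
  have h4 : (w - a) ^ m ≤ (b - a) ^ m := pow_le_pow_left₀ (by linarith [hw.1]) (by linarith [hw.2]) m
  have h5 := fac_pos m
  have h6 : 0 ≤ (v / a) ^ (((k + m : ℕ) : ℝ) / 2) := Real.rpow_nonneg (div_nonneg hv ha.le) _
  gcongr

end Pool.Agent.H394R3.BC
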