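import Mathlib

/-!
# The Hankel kernel `Ker n u v = (v / u) ^ (n / 2) * J_n (2 √(u v))`

`phi n x = ∑ (-x)^j / (j! (n+j)!)`, `Ker n u v = v^n * phi n (u v)`.
-/

set_option autoImplicit false

open MeasureTheory Set Filter Topology

namespace Pool.Agent.H394R3.BC

/-- Bessel-Clifford function -/
noncomputable def phi (n : ℕ) (x : ℝ) : ℝ := ∑' j : ℕ, (-x) ^ j / ((j.factorial : ℝ) * ((n + j).factorial : ℝ))

/-- Hankel kernel -/
noncomputable def Ker (n : ℕ) (u v : ℝ) : ℝ :=
  v ^ n * ∑' j : ℕ, (-(u * v)) ^ j / ((j.factorial : ℝ) * ((n + j).factorial : ℝ))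

theorem Ker_eq (n : ℕ) (u v : ℝ) : Ker n u v = v ^ n * phi n (u * v) := rfl

lemma fac_pos (n : ℕ) : (0 : ℝ) < n.factorial := by exact_mod_cast n.factorial_pos

lemma one_le_fac (n : ℕ) : (1 : ℝ) ≤ n.factorial := by exact_mod_cast n.factorial_pos

lemma term_le (n j : ℕ) (x : ℝ) :
    |(-x) ^ j / ((j.factorial : ℝ) * ((n + j).factorial : ℝ))| ≤ |x| ^ j / j.factorial := by
  have h1 := fac_pos j
  have h2 := one_le_fac (n + j)
  have h3 := fac_pos (n + j)
  rw [abs_div, abs_pow, abs_neg, abs_of_pos (mul_pos h1 h3)]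
  apply div_le_div_of_nonneg_left (by positivity) h1
  nlinarith

lemma phi_summable (n : ℕ) (x : ℝ) :
    Summable (fun j : ℕ => (-x) ^ j / ((j.factorial : ℝ) * ((n + j).factorial : ℝ))) :=
  Summable.of_norm_bounded (Real.summable_pow_div_factorial |x|) (fun j => term_le n j x)

theorem phi_deriv (n : ℕ) (x : ℝ) : HasDerivAt (phi n) (-(phi (n + 1) x)) x := by
  set R : ℝ := |x| + 1 with hR
  have hR0 : 0 ≤ R := by positivity
  have hx : x ∈ Metric.ball (0 : ℝ) R := by
    rw [mem_ball_zero_iff, Real.norm_eq_abs]; linarith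
  -- derivative of the terms
  set g' : ℕ → ℝ → ℝ := fun j y =>
    (j : ℝ) * (-y) ^ (j - 1) * (-1) / ((j.factorial : ℝ) * ((n + j).factorial : ℝ)) with hg'
  have hder : ∀ (j : ℕ) (y : ℝ), HasDerivAt (fun y : ℝ => (-y) ^ j /
      ((j.factorial : ℝ) * ((n + j).factorial : ℝ))) (g' j y) y := by
    intro j y
    exact (((hasDerivAt_id y).neg).pow j).div_const _
  have hb : ∀ (j : ℕ) (y : ℝ), y ∈ Metric.ball (0 : ℝ) R → ‖g' j y‖ ≤
      (if j = 0 then 0 else R ^ (j - 1) / ((j - 1).factorial : ℝ)) := by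
    intro j y hy
    rw [mem_ball_zero_iff, Real.norm_eq_abs] at hy
    rcases Nat.eq_zero_or_pos j with h0 | h0
    · subst h0
      simp [hg']
    · obtain ⟨i, rfl⟩ : ∃ i, j = i + 1 := ⟨j - 1, by omega⟩
      rw [if_neg (by omega)]
      simp only [hg', Nat.add_sub_cancel]
      have h1 := fac_pos i
      have h3 := fac_pos (n + (i + 1))
      have h4 := one_le_fac (n + (i + 1))
      have h7 : (0:ℝ) < ((i + 1).factorial : ℝ) * ((n + (i + 1)).factorial : ℝ) :=
        mul_pos (fac_pos _) h3
      rw [Real.norm_eq_abs, abs_div, abs_mul, abs_mul, abs_pow, abs_neg, abs_neg, abs_one, mul_one,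
        abs_of_nonneg (Nat.cast_nonneg (i+1) : (0:ℝ) ≤ ((i+1 : ℕ) : ℝ)), abs_of_pos h7]
      rw [div_le_div_iff₀ h7 h1, Nat.factorial_succ i]
      have h5 : |y| ^ i ≤ R ^ i := pow_le_pow_left₀ (abs_nonneg y) hy.le i
      push_cast
      have h6 : |y| ^ i * 1 ≤ R ^ i * ((n + (i + 1)).factorial : ℝ) :=
        mul_le_mul h5 h4 zero_le_one (by positivity)
      calc ((i:ℝ) + 1) * |y| ^ i * (i.factorial : ℝ)
          = (((i:ℝ) + 1) * (i.factorial : ℝ)) * (|y| ^ i * 1) := by ring
        _ ≤ (((i:ℝ) + 1) * (i.factorial : ℝ)) * (R ^ i * ((n + (i + 1)).factorial : ℝ)) :=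
            mul_le_mul_of_nonneg_left h6 (by positivity)
        _ = _ := by ring
  have hsum : Summable (fun j : ℕ => (if j = 0 then 0 else R ^ (j - 1) / ((j - 1).factorial : ℝ))) := by
    rw [← summable_nat_add_iff 1]
    simpa using Real.summable_pow_div_factorial R
  have h1 := hasDerivAt_tsum_of_isPreconnected (𝕜 := ℝ) hsum Metric.isOpen_ball
    (convex_ball (0:ℝ) R).isPreconnected (fun j y _ => hder j y) hb hx (phi_summable n x) hx
  have e : ∑' j, g' j x = -(phi (n + 1) x) := by
    have hs : Summable (fun j => g' j x) :=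
      Summable.of_norm_bounded hsum (fun j => hb j x hx)
    rw [hs.tsum_eq_zero_add]
    have e0 : g' 0 x = 0 := by simp [hg']
    rw [e0, zero_add]
    unfold phi
    rw [← tsum_neg]
    apply tsum_congr
    intro i
    simp only [hg', Nat.add_sub_cancel]
    have h1 := (fac_pos i).ne'
    have h3 := (fac_pos (n + 1 + i)).ne'
    have e1 : n + (i + 1) = n + 1 + i := by ring
    rw [e1, Nat.factorial_succ]
    push_cast
    have h4 : ((i:ℝ) + 1) ≠ 0 := by positivity
    field_simp
  rw [← e]
  exact h1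

lemma phi_zero (n : ℕ) : phi n 0 = 1 / n.factorial := by
  unfold phi
  rw [tsum_eq_single 0]
  · simp
  · intro j hj
    simp [hj]

lemma phi_rec (n : ℕ) (x : ℝ) : phi n x + x * phi (n + 2) x = (n + 1) * phi (n + 1) x := by
  have h1 := phi_summable n x
  have h2 := phi_summable (n + 1) x
  have h3 := phi_summable (n + 2) x
  unfold phi
  rw [← tsum_mul_left, ← tsum_mul_left]
  rw [h1.tsum_eq_zero_add, (h2.mul_left _).tsum_eq_zero_add]
  have e1 : (-x) ^ 0 / (((0 : ℕ).factorial : ℝ) * ((n + 0).factorial : ℝ)) =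
      ((n : ℝ) + 1) * ((-x) ^ 0 / (((0 : ℕ).factorial : ℝ) * ((n + 1 + 0).factorial : ℝ))) := by
    have := (fac_pos n).ne'
    simp only [pow_zero, Nat.factorial_zero, Nat.cast_one, one_mul, add_zero, Nat.factorial_succ]
    push_cast
    have h4 : ((n:ℝ) + 1) ≠ 0 := by positivity
    field_simp
  rw [e1, add_assoc]
  congr 1
  rw [← (((summable_nat_add_iff 1).2 h1).tsum_add (h3.mul_left x))]
  apply tsum_congr
  intro j
  have a1 := (fac_pos j).ne'
  have a2 := (fac_pos (n + 1 + j)).ne'
  have e2 : n + (j + 1) = n + 1 + j := by ring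
  have e3 : n + 2 + j = (n + 1 + j) + 1 := by ring
  have e4 : n + 1 + (j + 1) = (n + 1 + j) + 1 := by ring
  rw [e2, e3, e4, Nat.factorial_succ (n + 1 + j), Nat.factorial_succ j]
  push_cast
  have h4 : ((n:ℝ) + 1 + j + 1) ≠ 0 := by positivity
  have h5 : ((j:ℝ) + 1) ≠ 0 := by positivity
  field_simp
  ring

/-- `|phi n x| ≤ 1 / n!` by the energy `phi^2 + x phi'^2`. -/
theorem phi_le (n : ℕ) {x : ℝ} (hx : 0 ≤ x) : |phi n x| ≤ 1 / n.factorial := by
  set E : ℝ → ℝ := fun y => phi n y ^ 2 + y * phi (n + 1) y ^ 2 with hE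
  have hd : ∀ y : ℝ, HasDerivAt E (-(2 * n + 1) * phi (n + 1) y ^ 2) y := by
    intro y
    have h1 := (phi_deriv n y).pow 2
    have h2 := (hasDerivAt_id y).mul ((phi_deriv (n + 1) y).pow 2)
    have h3 : HasDerivAt E _ y := h1.add h2
    refine h3.congr_deriv ?_
    have hr := phi_rec n y
    have e : phi n y = (n + 1) * phi (n + 1) y - y * phi (n + 2) y := by linarith
    simp only [id, Pi.pow_apply, e, show n + 1 + 1 = n + 2 from rfl]
    push_cast
    ring
  have hanti : AntitoneOn E (Ici 0) := by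
    apply antitoneOn_of_deriv_nonpos (convex_Ici 0)
    · exact fun y _ => (hd y).continuousAt.continuousWithinAt
    · exact fun y _ => (hd y).differentiableAt.differentiableWithinAt
    · intro y _
      rw [(hd y).deriv]
      have h4 : 0 ≤ (2 * (n:ℝ) + 1) * phi (n + 1) y ^ 2 := by positivity
      linarith
  have h5 := hanti (mem_Ici.2 le_rfl) (mem_Ici.2 hx) hx
  have h6 : E 0 = (1 / n.factorial) ^ 2 := by
    rw [hE]
    simp only [phi_zero]
    ring
  have h7 : phi n x ^ 2 ≤ (1 / n.factorial) ^ 2 := by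
    rw [← h6]
    refine le_trans ?_ h5
    rw [hE]
    have : 0 ≤ x * phi (n + 1) x ^ 2 := by positivity
    linarith
  have h8 : (0:ℝ) ≤ 1 / n.factorial := by
    have := fac_pos n
    positivity
  exact abs_le_of_sq_le_sq h7 h8

/-- `x^n phi_n(x)^2 ≤ 1`: the sum of the squares of the Bessel functions is 1. -/
theorem phi_sq_le (n : ℕ) {x : ℝ} (hx : 0 ≤ x) : x ^ n * phi n x ^ 2 ≤ 1 := by
  set S : ℕ → ℝ → ℝ := fun N y => phi 0 y ^ 2 + 2 * ∑ i ∈ Finset.range N, y ^ (i + 1) * phi (i + 1) y ^ 2 with hS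
  have hd : ∀ (N : ℕ) (y : ℝ), HasDerivAt (S N) (-(2 * y ^ N * phi N y * phi (N + 1) y)) y := by
    intro N y
    induction N with
    | zero =>
      have e : S 0 = fun y => phi 0 y ^ 2 := by
        funext z
        simp [hS]
      rw [e]
      have h1 : HasDerivAt (fun y => phi 0 y ^ 2) _ y := (phi_deriv 0 y).pow 2
      refine h1.congr_deriv ?_
      push_cast
      ring
    | succ N ih =>
      have h1 := ((hasDerivAt_pow (N + 1) y).mul ((phi_deriv (N + 1) y).pow 2)).const_mul 2
      have e : S (N + 1) = fun y => S N y + 2 * (y ^ (N + 1) * phi (N + 1) y ^ 2) := by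
        funext z
        simp only [hS, Finset.sum_range_succ]
        ring
      rw [e]
      have h2 : HasDerivAt (fun y => S N y + 2 * (y ^ (N + 1) * phi (N + 1) y ^ 2)) _ y := ih.add h1
      refine h2.congr_deriv ?_
      have hr := phi_rec N y
      have e2 : phi N y = (N + 1) * phi (N + 1) y - y * phi (N + 2) y := by linarith
      simp only [Nat.add_sub_cancel, Pi.pow_apply, e2, show N + 1 + 1 = N + 2 from rfl]
      push_cast
      ring
  have hSN : ∀ N : ℕ, S N x ≤ 1 + 2 * x ^ (N + 1) / ((N + 1).factorial : ℝ) := by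
    intro N
    set G : ℝ → ℝ := fun y => 2 * y ^ (N + 1) / ((N + 1).factorial : ℝ) - S N y with hG
    have hGd : ∀ y : ℝ, HasDerivAt G (2 * (((N + 1 : ℕ) : ℝ) * y ^ N) / ((N + 1).factorial : ℝ) -
        (-(2 * y ^ N * phi N y * phi (N + 1) y))) y := by
      intro y
      have h1 := (((hasDerivAt_pow (N + 1) y).const_mul 2).div_const ((N + 1).factorial : ℝ)).sub (hd N y)
      simp only [Nat.add_sub_cancel] at h1
      exact h1
    have hmono : MonotoneOn G (Ici 0) := by
      apply monotoneOn_of_deriv_nonneg (convex_Ici 0)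
      · exact fun y _ => (hGd y).continuousAt.continuousWithinAt
      · exact fun y _ => (hGd y).differentiableAt.differentiableWithinAt
      · intro y hy
        rw [interior_Ici] at hy
        have hy0 : 0 < y := hy
        rw [(hGd y).deriv]
        have a1 := phi_le N hy0.le
        have a2 := phi_le (N + 1) hy0.le
        have a3 : |phi N y * phi (N + 1) y| ≤ 1 / N.factorial * 1 := by
          rw [abs_mul]
          apply mul_le_mul a1 (a2.trans _) (abs_nonneg _) (by have := fac_pos N; positivity)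
          rw [div_le_one (fac_pos _)]
          exact one_le_fac _
        have a4 := neg_abs_le (phi N y * phi (N + 1) y)
        have a5 : 2 * (((N + 1 : ℕ) : ℝ) * y ^ N) / ((N + 1).factorial : ℝ) = 2 * y ^ N * (1 / N.factorial) := by
          rw [Nat.factorial_succ]
          push_cast
          have := (fac_pos N).ne'
          have h4 : ((N:ℝ) + 1) ≠ 0 := by positivity
          field_simp
        rw [a5]
        have a6 : 0 ≤ 2 * y ^ N := by positivity
        have a7 : 0 ≤ 1 / (N.factorial : ℝ) + phi N y * phi (N + 1) y := by linarith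
        nlinarith [mul_nonneg a6 a7]
    have h1 := hmono (mem_Ici.2 le_rfl) (mem_Ici.2 hx) hx
    have h2 : G 0 = -1 := by
      simp only [hG, hS, phi_zero]
      simp
    rw [h2] at h1
    simp only [hG] at h1
    linarith
  rcases Nat.eq_zero_or_pos n with h0 | h0
  · subst h0
    have h1 := phi_le 0 hx
    simp only [Nat.factorial_zero, Nat.cast_one, div_one] at h1
    rw [pow_zero, one_mul, ← sq_abs]
    have := abs_nonneg (phi 0 x)
    nlinarith
  · obtain ⟨i, rfl⟩ : ∃ i, n = i + 1 := ⟨n - 1, by omega⟩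
    have hlim : Tendsto (fun N : ℕ => 1 + 2 * (x ^ (N + 1) / ((N + 1).factorial : ℝ))) atTop (𝓝 (1 + 2 * 0)) := by
      apply Tendsto.const_add
      apply Tendsto.const_mul
      have := FloorSemiring.tendsto_pow_div_factorial_atTop x
      exact this.comp (tendsto_add_atTop_nat 1)
    rw [mul_zero, add_zero] at hlim
    have hle : x ^ (i + 1) * phi (i + 1) x ^ 2 ≤ 1 := by
      apply ge_of_tendsto hlim
      filter_upwards [eventually_ge_atTop (i + 1)] with N hN
      have h1 := hSN N
      have h2 : x ^ (i + 1) * phi (i + 1) x ^ 2 ≤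
          ∑ j ∈ Finset.range N, x ^ (j + 1) * phi (j + 1) x ^ 2 :=
        Finset.single_le_sum (f := fun j => x ^ (j + 1) * phi (j + 1) x ^ 2)
          (fun j _ => by positivity) (Finset.mem_range.2 (by omega))
      have h3 : S N x = phi 0 x ^ 2 + 2 * ∑ j ∈ Finset.range N, x ^ (j + 1) * phi (j + 1) x ^ 2 := rfl
      have h4 : 0 ≤ x ^ (i + 1) * phi (i + 1) x ^ 2 := by positivity
      have h5 := sq_nonneg (phi 0 x)
      rw [h3, mul_div_assoc] at h1
      linarith
    exact hle

theorem Ker_le_pow (n : ℕ) {u v : ℝ} (hu : 0 ≤ u) (hv : 0 ≤ v) : |Ker n u v| ≤ v ^ n / n.factorial := by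
  rw [Ker_eq, abs_mul, abs_of_nonneg (pow_nonneg hv n)]
  calc v ^ n * |phi n (u * v)| ≤ v ^ n * (1 / n.factorial) :=
        mul_le_mul_of_nonneg_left (phi_le n (mul_nonneg hu hv)) (pow_nonneg hv n)
    _ = _ := by ring

theorem Ker_le_rpow (n : ℕ) {u v : ℝ} (hu : 0 < u) (hv : 0 ≤ v) : |Ker n u v| ≤ (v / u) ^ ((n : ℝ) / 2) := by
  have h1 := phi_sq_le n (mul_nonneg hu.le hv)
  have h2 : (Ker n u v) ^ 2 ≤ (v / u) ^ n := by
    rw [Ker_eq, div_pow, le_div_iff₀ (pow_pos hu n)]
    calc (v ^ n * phi n (u * v)) ^ 2 * u ^ n = v ^ n * ((u * v) ^ n * phi n (u * v) ^ 2) := by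
          rw [mul_pow u v]; ring
      _ ≤ v ^ n * 1 := mul_le_mul_of_nonneg_left h1 (pow_nonneg hv n)
      _ = v ^ n := mul_one _
  have h3 : 0 ≤ v / u := div_nonneg hv hu.le
  have h4 : ((v / u) ^ ((n : ℝ) / 2)) ^ 2 = (v / u) ^ n := by
    rw [← Real.rpow_natCast, ← Real.rpow_mul h3, ← Real.rpow_natCast]
    congr 1
    push_cast
    ring
  rw [← h4] at h2
  exact abs_le_of_sq_le_sq h2 (Real.rpow_nonneg h3 _)

theorem Ker_deriv (n : ℕ) (u v : ℝ) : HasDerivAt (fun u => Ker n u v) (-(Ker (n + 1) u v)) u := by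
  have h1 : HasDerivAt (fun u : ℝ => u * v) v u := by
    simpa using (hasDerivAt_id u).mul_const v
  have h2 := ((phi_deriv n (u * v)).comp u h1).const_mul (v ^ n)
  have e : -(Ker (n + 1) u v) = v ^ n * (-(phi (n + 1) (u * v)) * v) := by
    rw [Ker_eq]; ring
  rw [e]
  exact h2

theorem phi_cont (n : ℕ) : Continuous (phi n) :=
  continuous_iff_continuousAt.2 fun x => (phi_deriv n x).continuousAt

theorem Ker_cont (n : ℕ) : Continuous (fun p : ℝ × ℝ => Ker n p.1 p.2) := by
  have : (fun p : ℝ × ℝ => Ker n p.1 p.2) = fun p => p.2 ^ n * phi n (p.1 * p.2) := rfl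
  rw [this]
  exact (continuous_snd.pow n).mul ((phi_cont n).comp (continuous_fst.mul continuous_snd))

theorem Ker_cont_right (n : ℕ) (u : ℝ) : Continuous (fun v => Ker n u v) := by
  exact (Ker_cont n).comp (continuous_const.prodMk continuous_id)

theorem Ker_cont_left (n : ℕ) (v : ℝ) : Continuous (fun u => Ker n u v) := by
  exact (Ker_cont n).comp (continuous_id.prodMk continuous_const)

/-- abstract Taylor estimate -/
theorem taylor_abs (m : ℕ) : ∀ (D : ℕ → ℝ → ℝ) (_ : ∀ i x, HasDerivAt (D i) (D (i + 1) x) x) (u w M : ℝ),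
    (∀ s ∈ uIcc u w, |D m s| ≤ M) →
    |D 0 w - ∑ i ∈ Finset.range m, (w - u) ^ i / (i.factorial : ℝ) * D i u| ≤ |w - u| ^ m / (m.factorial : ℝ) * M := by
  induction m with
  | zero =>
    intro D _ u w M h
    simpa using h w right_mem_uIcc
  | succ m ih =>
    intro D hD u w M h
    set g : ℝ → ℝ := fun s => D 0 s - ∑ i ∈ Finset.range (m + 1), (s - u) ^ i / (i.factorial : ℝ) * D i u with hg
    have hgu : g u = 0 := by
      simp only [hg, Finset.sum_range_succ', sub_self]
      simp
    have hgd : ∀ s, HasDerivAt g (D 1 s - ∑ i ∈ Finset.range m, (s - u) ^ i / (i.factorial : ℝ) * D (i + 1) u) s := by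
      intro s
      have h1 : HasDerivAt (fun s : ℝ => ∑ i ∈ Finset.range (m + 1), (s - u) ^ i / (i.factorial : ℝ) * D i u)
          (∑ i ∈ Finset.range m, (s - u) ^ i / (i.factorial : ℝ) * D (i + 1) u) s := by
        have h2 : HasDerivAt (fun s : ℝ => ∑ i ∈ Finset.range (m + 1), (s - u) ^ i / (i.factorial : ℝ) * D i u)
            (∑ i ∈ Finset.range (m + 1), ((i : ℝ) * (s - u) ^ (i - 1) * 1) / (i.factorial : ℝ) * D i u) s := by
          apply HasDerivAt.fun_sum
          intro i _
          exact ((((hasDerivAt_id s).sub_const u).pow i).div_const _).mul_const _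
        refine h2.congr_deriv ?_
        rw [Finset.sum_range_succ']
        simp only [Nat.cast_zero, zero_mul, zero_div, add_zero]
        apply Finset.sum_congr rfl
        intro i _
        rw [Nat.factorial_succ]
        push_cast
        have h3 := (fac_pos i).ne'
        have h4 : ((i:ℝ) + 1) ≠ 0 := by positivity
        field_simp
      exact (hD 0 s).sub h1
    have hgb : ∀ s ∈ uIcc u w, |D 1 s - ∑ i ∈ Finset.range m, (s - u) ^ i / (i.factorial : ℝ) * D (i + 1) u| ≤
        |s - u| ^ m / (m.factorial : ℝ) * M := by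
      intro s hs
      have := ih (fun i => D (i + 1)) (fun i x => hD (i + 1) x) u s M (by
        intro r hr
        exact h r (uIcc_subset_uIcc left_mem_uIcc hs hr))
      simpa using this
    have key : |g w| ≤ |w - u| ^ (m + 1) / ((m + 1).factorial : ℝ) * M := by
      rcases le_total u w with huw | huw
      · rw [uIcc_of_le huw] at hgb
        have hP : ∀ s, HasDerivAt (fun s : ℝ => (s - u) ^ (m + 1) / ((m + 1).factorial : ℝ) * M)
            ((s - u) ^ m / (m.factorial : ℝ) * M) s := by
          intro s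
          have h1 : HasDerivAt (fun s : ℝ => (s - u) ^ (m + 1) / ((m + 1).factorial : ℝ) * M) _ s :=
            ((((hasDerivAt_id s).sub_const u).pow (m + 1)).div_const
            ((m + 1).factorial : ℝ)).mul_const M
          refine h1.congr_deriv ?_
          rw [Nat.factorial_succ]
          push_cast
          have h3 := (fac_pos m).ne'
          have h4 : ((m:ℝ) + 1) ≠ 0 := by positivity
          simp only [id]
          field_simp
        have mono : ∀ ε : ℝ, (ε = 1 ∨ ε = -1) → ε * g w ≤ (w - u) ^ (m + 1) / ((m + 1).factorial : ℝ) * M := by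
          intro ε hε
          have hQ : ∀ s, HasDerivAt (fun s => (s - u) ^ (m + 1) / ((m + 1).factorial : ℝ) * M - ε * g s)
              ((s - u) ^ m / (m.factorial : ℝ) * M -
                ε * (D 1 s - ∑ i ∈ Finset.range m, (s - u) ^ i / (i.factorial : ℝ) * D (i + 1) u)) s :=
            fun s => (hP s).sub ((hgd s).const_mul ε)
          have hm : MonotoneOn (fun s => (s - u) ^ (m + 1) / ((m + 1).factorial : ℝ) * M - ε * g s) (Icc u w) := by
            apply monotoneOn_of_deriv_nonneg (convex_Icc u w)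
            · exact fun s _ => (hQ s).continuousAt.continuousWithinAt
            · exact fun s _ => (hQ s).differentiableAt.differentiableWithinAt
            · intro s hs
              rw [interior_Icc] at hs
              rw [(hQ s).deriv]
              have h1 := hgb s ⟨hs.1.le, hs.2.le⟩
              rw [abs_of_nonneg (by linarith [hs.1] : 0 ≤ s - u)] at h1
              have h2 := abs_le.1 h1
              rcases hε with h | h <;> rw [h] <;> linarith [h2.1, h2.2]
          have := hm (left_mem_Icc.2 huw) (right_mem_Icc.2 huw) huw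
          simp only [hgu, sub_self, mul_zero, sub_zero] at this
          rw [zero_pow (by omega), zero_div, zero_mul] at this
          linarith
        rw [abs_of_nonneg (by linarith : 0 ≤ w - u), abs_le]
        have h1 := mono 1 (Or.inl rfl)
        have h2 := mono (-1) (Or.inr rfl)
        constructor <;> linarith
      · rw [uIcc_of_ge huw] at hgb
        have hP : ∀ s, HasDerivAt (fun s : ℝ => (u - s) ^ (m + 1) / ((m + 1).factorial : ℝ) * M)
            (-((u - s) ^ m / (m.factorial : ℝ) * M)) s := by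
          intro s
          have h1 : HasDerivAt (fun s : ℝ => (u - s) ^ (m + 1) / ((m + 1).factorial : ℝ) * M) _ s :=
            ((((hasDerivAt_id s).const_sub u).pow (m + 1)).div_const
            ((m + 1).factorial : ℝ)).mul_const M
          refine h1.congr_deriv ?_
          rw [Nat.factorial_succ]
          push_cast
          have h3 := (fac_pos m).ne'
          have h4 : ((m:ℝ) + 1) ≠ 0 := by positivity
          simp only [id]
          field_simp
        have mono : ∀ ε : ℝ, (ε = 1 ∨ ε = -1) → ε * g w ≤ (u - w) ^ (m + 1) / ((m + 1).factorial : ℝ) * M := by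
          intro ε hε
          have hQ : ∀ s, HasDerivAt (fun s => (u - s) ^ (m + 1) / ((m + 1).factorial : ℝ) * M - ε * g s)
              (-((u - s) ^ m / (m.factorial : ℝ) * M) -
                ε * (D 1 s - ∑ i ∈ Finset.range m, (s - u) ^ i / (i.factorial : ℝ) * D (i + 1) u)) s :=
            fun s => (hP s).sub ((hgd s).const_mul ε)
          have hm : AntitoneOn (fun s => (u - s) ^ (m + 1) / ((m + 1).factorial : ℝ) * M - ε * g s) (Icc w u) := by
            apply antitoneOn_of_deriv_nonpos (convex_Icc w u)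
            · exact fun s _ => (hQ s).continuousAt.continuousWithinAt
            · exact fun s _ => (hQ s).differentiableAt.differentiableWithinAt
            · intro s hs
              rw [interior_Icc] at hs
              rw [(hQ s).deriv]
              have h1 := hgb s ⟨hs.1.le, hs.2.le⟩
              have e1 : |s - u| = u - s := by rw [abs_sub_comm]; exact abs_of_nonneg (by linarith [hs.2])
              rw [e1] at h1
              have h2 := abs_le.1 h1
              rcases hε with h | h <;> rw [h] <;> linarith [h2.1, h2.2]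
          have := hm (left_mem_Icc.2 huw) (right_mem_Icc.2 huw) huw
          simp only [hgu, sub_self, mul_zero, sub_zero] at this
          rw [zero_pow (by omega), zero_div, zero_mul] at this
          linarith
        have e1 : |w - u| = u - w := by rw [abs_sub_comm]; exact abs_of_nonneg (by linarith)
        rw [e1, abs_le]
        have h1 := mono 1 (Or.inl rfl)
        have h2 := mono (-1) (Or.inr rfl)
        constructor <;> linarith
    exact key

theorem Ker_taylor_gen (n m : ℕ) (u w v M : ℝ) (hM : ∀ s ∈ uIcc u w, |Ker (n + m) s v| ≤ M) :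
    |Ker n w v - ∑ i ∈ Finset.range m, (w - u) ^ i / (i.factorial : ℝ) * ((-1) ^ i * Ker (n + i) u v)| ≤
      |w - u| ^ m / (m.factorial : ℝ) * M := by
  have h := taylor_abs m (fun i s => (-1) ^ i * Ker (n + i) s v) (by
    intro i x
    have h1 : HasDerivAt (fun s => (-1) ^ i * Ker (n + i) s v) _ x :=
      (Ker_deriv (n + i) x v).const_mul ((-1) ^ i)
    refine h1.congr_deriv ?_
    rw [show n + (i + 1) = n + i + 1 by ring]
    ring) u w M (by
    intro s hs
    rw [abs_mul, abs_pow, abs_neg, abs_one, one_pow, one_mul]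
    exact hM s hs)
  simpa using h

theorem Ker_taylor (n m : ℕ) {u₀ u w v : ℝ} (h0 : 0 < u₀) (hu : u₀ ≤ u) (hw : u₀ ≤ w) (hv : 0 ≤ v) :
    |Ker n w v - ∑ i ∈ Finset.range m, (w - u) ^ i / (i.factorial : ℝ) * ((-1) ^ i * Ker (n + i) u v)| ≤
      |w - u| ^ m / (m.factorial : ℝ) * (v / u₀) ^ (((n + m : ℕ) : ℝ) / 2) := by
  apply Ker_taylor_gen
  intro s hs
  have hs0 : u₀ ≤ s := le_trans (le_min hu hw) hs.1
  have hspos : 0 < s := h0.trans_le hs0
  refine (Ker_le_rpow (n + m) hspos hv).trans ?_
  apply Real.rpow_le_rpow (div_nonneg hv hspos.le) _ (by positivity)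
  exact div_le_div_of_nonneg_left hv h0 hs0

lemma int_pow_exp (n : ℕ) {t : ℝ} (ht : 0 < t) :
    IntegrableOn (fun v : ℝ => Real.exp (-(v * t)) * v ^ n) (Ioi 0) ∧
    ∫ v in Ioi (0:ℝ), Real.exp (-(v * t)) * v ^ n = n.factorial / t ^ (n + 1) := by
  have h1 := Real.integral_rpow_mul_exp_neg_mul_Ioi (a := (n : ℝ) + 1) (r := t) (by positivity) ht
  have e : ∀ v ∈ Ioi (0:ℝ), v ^ ((n : ℝ) + 1 - 1) * Real.exp (-(t * v)) = Real.exp (-(v * t)) * v ^ n := by
    intro v _
    rw [add_sub_cancel_right, Real.rpow_natCast, mul_comm t v]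
    ring
  rw [setIntegral_congr_fun measurableSet_Ioi e] at h1
  have h2 : (1 / t) ^ ((n:ℝ) + 1) * Real.Gamma ((n : ℝ) + 1) = n.factorial / t ^ (n + 1) := by
    rw [Real.Gamma_nat_eq_factorial, show (n:ℝ) + 1 = ((n + 1 : ℕ) : ℝ) by push_cast; ring,
      Real.rpow_natCast, one_div, inv_pow]
    ring
  rw [h2] at h1
  refine ⟨?_, h1⟩
  by_contra hni
  rw [integral_undef hni] at h1
  have := fac_pos n
  have h3 : 0 < (n.factorial : ℝ) / t ^ (n + 1) := by positivity
  exact h3.ne h1

theorem Ker_laplace_int (n : ℕ) {u t : ℝ} (hu : 0 ≤ u) (ht : 0 < t) :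
    IntegrableOn (fun v : ℝ => Real.exp (-(v * t)) * Ker n u v) (Ioi 0) := by
  have h1 := (int_pow_exp n ht).1
  refine Integrable.mono h1 ?_ ?_
  · apply Continuous.aestronglyMeasurable
    have := Ker_cont_right n u
    fun_prop
  · rw [ae_restrict_iff' measurableSet_Ioi]
    refine Eventually.of_forall fun v hv => ?_
    have hv : 0 < v := hv
    rw [norm_mul, norm_mul]
    apply mul_le_mul_of_nonneg_left _ (norm_nonneg _)
    rw [Real.norm_eq_abs, Real.norm_eq_abs, abs_of_nonneg (pow_nonneg hv.le n)]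
    refine (Ker_le_pow n hu hv.le).trans ?_
    exact div_le_self (pow_nonneg hv.le n) (one_le_fac n)

theorem Ker_laplace (n : ℕ) {u t : ℝ} (hu : 0 ≤ u) (ht : 0 < t) :
    ∫ v in Ioi (0:ℝ), Real.exp (-(v * t)) * Ker n u v = (t ^ (n + 1))⁻¹ * Real.exp (-(u / t)) := by
  set F : ℕ → ℝ → ℝ := fun j v => (-u) ^ j / ((j.factorial : ℝ) * ((n + j).factorial : ℝ)) *
    (Real.exp (-(v * t)) * v ^ (n + j)) with hF
  have hint : ∀ j, IntegrableOn (F j) (Ioi 0) := fun j => (int_pow_exp (n + j) ht).1.const_mul _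
  have hval : ∀ j, ∫ v in Ioi (0:ℝ), F j v = (t ^ (n + 1))⁻¹ * ((-(u / t)) ^ j / (j.factorial : ℝ)) := by
    intro j
    simp only [hF]
    rw [integral_const_mul, (int_pow_exp (n + j) ht).2]
    have h1 := (fac_pos j).ne'
    have h2 := (fac_pos (n + j)).ne'
    have e : -(u / t) = (-u) / t := by ring
    rw [e, div_pow, show n + j + 1 = (n + 1) + j by ring, pow_add t]
    field_simp
  have hnorm : ∀ j, ∫ v in Ioi (0:ℝ), ‖F j v‖ = (t ^ (n + 1))⁻¹ * ((u / t) ^ j / (j.factorial : ℝ)) := by
    intro j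
    have e0 : ∀ v ∈ Ioi (0:ℝ), ‖F j v‖ = u ^ j / ((j.factorial : ℝ) * ((n + j).factorial : ℝ)) *
        (Real.exp (-(v * t)) * v ^ (n + j)) := by
      intro v hv
      have hv : 0 < v := hv
      have h1 := fac_pos j
      have h2 := fac_pos (n + j)
      simp only [hF]
      rw [norm_mul, norm_div, norm_pow, norm_neg, Real.norm_of_nonneg hu,
        Real.norm_of_nonneg (by positivity : (0:ℝ) ≤ (j.factorial : ℝ) * ((n + j).factorial : ℝ)),
        Real.norm_of_nonneg (by positivity : (0:ℝ) ≤ Real.exp (-(v * t)) * v ^ (n + j))]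
    rw [setIntegral_congr_fun measurableSet_Ioi e0, integral_const_mul, (int_pow_exp (n + j) ht).2]
    have h1 := (fac_pos j).ne'
    have h2 := (fac_pos (n + j)).ne'
    rw [div_pow, show n + j + 1 = (n + 1) + j by ring, pow_add t]
    field_simp
  have hs : Summable (fun j => ∫ v in Ioi (0:ℝ), ‖F j v‖) := by
    simp_rw [hnorm]
    exact (Real.summable_pow_div_factorial (u / t)).mul_left _
  have h1 := hasSum_integral_of_summable_integral_norm (μ := volume.restrict (Ioi (0:ℝ))) hint hs
  have e1 : ∀ v : ℝ, ∑' j, F j v = Real.exp (-(v * t)) * Ker n u v := by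
    intro v
    simp only [hF]
    unfold Ker
    rw [← mul_assoc, ← tsum_mul_left]
    apply tsum_congr
    intro j
    rw [pow_add, show -(u * v) = (-u) * v by ring, mul_pow]
    ring
  simp_rw [e1, hval] at h1
  rw [← h1.tsum_eq, tsum_mul_left, Real.exp_eq_exp_ℝ, NormedSpace.exp_eq_tsum_div]

end Pool.Agent.H394R3.BC
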