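import Pool.Agent.H96R3.BC.Stmts
import Pool.Agent.H394R3.BC.Cell

/-!
# TaskKer1, TaskKer2 of project BIGCOEF
-/

set_option autoImplicit false

open MeasureTheory Set Filter Topology
open Pool.Agent.H96R3.BC

namespace Pool.Agent.H394R3.BC

theorem KK_eq {k : ℕ} (u v : ℝ) : KK k u v = Ker (k - 1) u v := by
  unfold KK
  rw [Ker_eq]
  rfl

theorem ker1 : TaskKer1 := by
  intro k hk
  obtain ⟨k, rfl⟩ : ∃ l, k = l + 1 := ⟨k - 1, by omega⟩
  simp only [KK_eq, Nat.add_sub_cancel]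
  refine ⟨Ker_deriv k, Ker_cont k, fun u t hu ht => ⟨Ker_laplace_int k hu ht, ?_⟩⟩
  rw [Ker_laplace k hu ht]
  ring

theorem ker2 : TaskKer2 := by
  intro k hk u v hu hv
  obtain ⟨k, rfl⟩ : ∃ l, k = l + 1 := ⟨k - 1, by omega⟩
  simp only [KK_eq, Nat.add_sub_cancel]
  constructor
  · refine (Ker_le_pow k hu hv).trans ((div_le_self (pow_nonneg hv k) (one_le_fac k)).trans ?_)
    nlinarith [pow_nonneg hv k]
  · rw [Ker_eq]
    have h := phi_sq_le k (mul_nonneg hu hv)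
    have hv' := pow_nonneg hv k
    calc (v ^ k * phi k (u * v)) ^ 2 * u ^ k = v ^ k * ((u * v) ^ k * phi k (u * v) ^ 2) := by
          rw [mul_pow u v]; ring
      _ ≤ v ^ k * 1 := by gcongr
      _ = v ^ k := mul_one _

end Pool.Agent.H394R3.BC
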