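import Pool.Agent.H394R3.BC.Ker

/-!
# Theta relation from the splitting `ν = B + f dv`, `f = ∫ Ker dB`
-/

set_option autoImplicit false

open MeasureTheory Set Filter Topology

namespace Pool.Agent.H394R3.BC

/-- cell functional: atoms `A n` at `u n` (`n ∈ S`) minus `f dw` on `[a, b]` -/
noncomputable def cellB (A u : ℕ → ℝ) (f : ℝ → ℝ) (S : Finset ℕ) (a b : ℝ) (g : ℝ → ℝ) : ℝ :=
  ∑ n ∈ S, A n * g (u n) - ∫ w in a..b, f w * g w

/-- Fubini on one cell -/
theorem cell_laplace (k : ℕ) {A u : ℕ → ℝ} {f : ℝ → ℝ} (hf : Continuous f) {S : Finset ℕ} {a b : ℝ}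
    (ha : 0 ≤ a) (hab : a ≤ b) (hu : ∀ n ∈ S, 0 ≤ u n) {t : ℝ} (ht : 0 < t) :
    IntegrableOn (fun v : ℝ => Real.exp (-(v * t)) * cellB A u f S a b (fun w => Ker k w v)) (Ioi 0) ∧
    ∫ v in Ioi (0:ℝ), Real.exp (-(v * t)) * cellB A u f S a b (fun w => Ker k w v) =
      (t ^ (k + 1))⁻¹ * cellB A u f S a b (fun w => Real.exp (-(w / t))) := by
  -- the product function
  have hprod : Integrable (Function.uncurry fun (v w : ℝ) => Real.exp (-(v * t)) * (f w * Ker k w v))
      ((volume.restrict (Ioi (0:ℝ))).prod (volume.restrict (Ioc a b))) := by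
    have h1 : Integrable (fun p : ℝ × ℝ => (Real.exp (-(p.1 * t)) * p.1 ^ k) * |f p.2|)
        ((volume.restrict (Ioi (0:ℝ))).prod (volume.restrict (Ioc a b))) := by
      apply Integrable.mul_prod (f := fun v : ℝ => Real.exp (-(v * t)) * v ^ k) (g := fun w => |f w|)
      · exact (int_pow_exp k ht).1
      · exact (hf.abs.integrableOn_Icc (a := a) (b := b)).mono_set Ioc_subset_Icc_self
    refine h1.mono ?_ ?_
    · apply Continuous.aestronglyMeasurable
      have h2 : Continuous (fun p : ℝ × ℝ => Ker k p.2 p.1) := (Ker_cont k).comp continuous_swap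
      have h3 : Continuous (fun p : ℝ × ℝ => f p.2) := hf.comp continuous_snd
      show Continuous (fun p : ℝ × ℝ => Real.exp (-(p.1 * t)) * (f p.2 * Ker k p.2 p.1))
      fun_prop
    · rw [Measure.prod_restrict, ae_restrict_iff' (measurableSet_Ioi.prod measurableSet_Ioc)]
      refine Eventually.of_forall fun p hp => ?_
      have hv : 0 < p.1 := hp.1
      have hw : 0 ≤ p.2 := ha.trans hp.2.1.le
      simp only [Function.uncurry, norm_mul, Real.norm_eq_abs, abs_abs]
      have h4 := (Ker_le_pow k hw hv.le).trans (div_le_self (pow_nonneg hv.le k) (one_le_fac k))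
      rw [abs_of_nonneg (pow_nonneg hv.le k), abs_of_pos (Real.exp_pos _)]
      have h5 := abs_nonneg (f p.2)
      have h6 := (Real.exp_pos (-(p.1 * t))).le
      calc Real.exp (-(p.1 * t)) * (|f p.2| * |Ker k p.2 p.1|)
          ≤ Real.exp (-(p.1 * t)) * (|f p.2| * p.1 ^ k) := by gcongr
        _ = _ := by ring
  have hI : ∀ v : ℝ, Real.exp (-(v * t)) * (∫ w in a..b, f w * Ker k w v) =
      ∫ w in Ioc a b, Real.exp (-(v * t)) * (f w * Ker k w v) := by
    intro v
    rw [intervalIntegral.integral_of_le hab, integral_const_mul]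
  have hA : ∀ n ∈ S, IntegrableOn (fun v : ℝ => A n * (Real.exp (-(v * t)) * Ker k (u n) v)) (Ioi 0) :=
    fun n hn => (Ker_laplace_int k (hu n hn) ht).const_mul _
  have hB : IntegrableOn (fun v : ℝ => Real.exp (-(v * t)) * (∫ w in a..b, f w * Ker k w v)) (Ioi 0) := by
    simp_rw [hI]
    exact hprod.integral_prod_left
  have e1 : (fun v : ℝ => Real.exp (-(v * t)) * cellB A u f S a b (fun w => Ker k w v)) =
      fun v => (∑ n ∈ S, A n * (Real.exp (-(v * t)) * Ker k (u n) v)) -
        Real.exp (-(v * t)) * (∫ w in a..b, f w * Ker k w v) := by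
    funext v
    unfold cellB
    rw [mul_sub, Finset.mul_sum]
    congr 1
    apply Finset.sum_congr rfl
    intro n _
    ring
  have hSint : IntegrableOn (fun v : ℝ => ∑ n ∈ S, A n * (Real.exp (-(v * t)) * Ker k (u n) v)) (Ioi 0) :=
    integrable_finsetSum _ hA
  refine ⟨?_, ?_⟩
  · rw [e1]
    exact hSint.sub hB
  · rw [e1, integral_sub hSint hB, integral_finsetSum _ hA]
    unfold cellB
    rw [mul_sub, Finset.mul_sum]
    congr 1
    · apply Finset.sum_congr rfl
      intro n hn
      rw [integral_const_mul, Ker_laplace k (hu n hn) ht]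
      ring
    · simp_rw [hI]
      rw [integral_integral_swap hprod, intervalIntegral.integral_of_le hab, ← integral_const_mul]
      apply setIntegral_congr_fun measurableSet_Ioc
      intro w hw
      have hw0 : 0 ≤ w := ha.trans hw.1.le
      have e2 : ∀ v : ℝ, Real.exp (-(v * t)) * (f w * Ker k w v) = f w * (Real.exp (-(v * t)) * Ker k w v) := by
        intro v; ring
      simp_rw [e2]
      rw [integral_const_mul, Ker_laplace k hw0 ht]
      ring

/-- the theta relation -/
theorem theta_rel (k : ℕ) {A u : ℕ → ℝ} {f : ℝ → ℝ} (hf : Continuous f) (S : ℕ → Finset ℕ) (a : ℕ → ℝ)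
    (ha0 : a 0 = 0) (hmono : Monotone a) (hlim : Tendsto a atTop atTop)
    (hu : ∀ j, ∀ n ∈ S j, 0 ≤ u n)
    (H1 : ∀ t : ℝ, 0 < t → Summable (fun j => ∑ n ∈ S j, A n * Real.exp (-(u n * t))))
    (H2 : ∀ t : ℝ, 0 < t → IntegrableOn (fun w : ℝ => f w * Real.exp (-(w * t))) (Ioi 0))
    (H3 : ∀ v : ℝ, 0 < v → HasSum (fun j => cellB A u f (S j) (a j) (a (j + 1)) (fun w => Ker k w v)) (f v))
    (H4 : ∀ t : ℝ, 0 < t → Summable (fun j => ∫ v in Ioi (0:ℝ),
      Real.exp (-(v * t)) * |cellB A u f (S j) (a j) (a (j + 1)) (fun w => Ker k w v)|))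
    {t : ℝ} (ht : 0 < t) :
    ∑' j, ∑ n ∈ S j, A n * Real.exp (-(u n / t)) = t ^ (k + 1) * ∑' j, ∑ n ∈ S j, A n * Real.exp (-(u n * t)) := by
  have hanonneg : ∀ j, 0 ≤ a j := fun j => by rw [← ha0]; exact hmono (Nat.zero_le j)
  -- b(t)
  set b : ℝ → ℝ := fun t => ∑' j, cellB A u f (S j) (a j) (a (j + 1)) (fun w => Real.exp (-(w * t))) with hb
  set Θ : ℝ → ℝ := fun t => ∑' j, ∑ n ∈ S j, A n * Real.exp (-(u n * t)) with hΘ
  set φ : ℝ → ℝ := fun t => ∫ w in Ioi (0:ℝ), f w * Real.exp (-(w * t)) with hφ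
  have hint : ∀ t : ℝ, 0 < t → HasSum (fun j => ∫ w in a j..a (j + 1), f w * Real.exp (-(w * t))) (φ t) := by
    intro t ht
    have hU : (⋃ j, Ioc (a j) (a (j + 1))) = Ioi (0:ℝ) := by
      have h := iUnion_Ioc_map_succ_eq_Ioi (f := a) (fun n => hmono (Nat.zero_le n)) (Filter.not_bddAbove_of_tendsto_atTop hlim)
      rw [← ha0]
      simpa using h
    have hd : Pairwise (Function.onFun Disjoint fun j => Ioc (a j) (a (j + 1))) := by
      simpa using hmono.pairwise_disjoint_on_Ioc_succ
    have h1 := hasSum_integral_iUnion (μ := volume) (f := fun w : ℝ => f w * Real.exp (-(w * t)))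
      (s := fun j => Ioc (a j) (a (j + 1))) (fun j => measurableSet_Ioc) hd (by rw [hU]; exact H2 t ht)
    rw [hU] at h1
    refine h1.congr_fun fun j => ?_
    rw [intervalIntegral.integral_of_le (hmono (Nat.le_succ j))]
  have hbt : ∀ t : ℝ, 0 < t → b t = Θ t - φ t := by
    intro t ht
    have h1 := (H1 t ht).hasSum.sub (hint t ht)
    exact h1.tsum_eq
  have hφt : ∀ t : ℝ, 0 < t → φ t = (t ^ (k + 1))⁻¹ * b (1 / t) := by
    intro t ht
    have hcell := fun j => cell_laplace k (A := A) (u := u) hf (hanonneg j) (hmono (Nat.le_succ j)) (hu j) ht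
    have h1 := hasSum_integral_of_summable_integral_norm (μ := volume.restrict (Ioi (0:ℝ)))
      (F := fun j v => Real.exp (-(v * t)) * cellB A u f (S j) (a j) (a (j + 1)) (fun w => Ker k w v))
      (fun j => (hcell j).1) (by
        refine (H4 t ht).congr fun j => ?_
        apply setIntegral_congr_fun measurableSet_Ioi
        intro v _
        simp only [norm_mul, Real.norm_eq_abs, abs_of_pos (Real.exp_pos _)])
    have h2 : ∫ v in Ioi (0:ℝ), ∑' j, Real.exp (-(v * t)) * cellB A u f (S j) (a j) (a (j + 1)) (fun w => Ker k w v) =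
        φ t := by
      apply setIntegral_congr_fun measurableSet_Ioi
      intro v hv
      simp only []
      rw [tsum_mul_left, (H3 v hv).tsum_eq]
      ring
    rw [h2] at h1
    rw [← h1.tsum_eq]
    simp_rw [fun j => (hcell j).2]
    rw [tsum_mul_left]
    congr 1
    apply tsum_congr
    intro j
    congr 1
    funext w
    congr 1
    field_simp
  have h1 := hbt t ht
  have h2 := hbt (1 / t) (by positivity)
  have h3 := hφt t ht
  have h4 := hφt (1 / t) (by positivity)
  rw [one_div_one_div] at h4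
  have e1 : ∑' j, ∑ n ∈ S j, A n * Real.exp (-(u n / t)) = Θ (1 / t) := by
    simp only [hΘ]
    apply tsum_congr
    intro j
    apply Finset.sum_congr rfl
    intro n _
    rw [mul_one_div]
  rw [e1]
  show Θ (1 / t) = t ^ (k + 1) * Θ t
  have htk : t ^ (k + 1) ≠ 0 := (pow_pos ht _).ne'
  have e2 : ((1 / t) ^ (k + 1))⁻¹ = t ^ (k + 1) := by
    rw [one_div, inv_pow, inv_inv]
  rw [e2] at h4
  have e3 : Θ t = b t + (t ^ (k + 1))⁻¹ * b (1 / t) := by linarith
  rw [e3, mul_add, ← mul_assoc, mul_inv_cancel₀ htk, one_mul]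
  linarith

end Pool.Agent.H394R3.BC
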